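import Mathlib

/-!
# The finite information inequality (project AG, piece D)

If a random probability vector `p y` on a finite set (`y` of law `ν`) has mutual information at most
`C`, then with `ν × ν`-probability at least `exp (-2C)/4` two independent vectors overlap with mass
at least `exp (-2C)/4`.
-/

namespace Pool.Agent.Helper97.AG

open MeasureTheory Real

section finite

variable {κ : Type*} [Fintype κ]

/-- Tangent line form of the bound `√(pq) ≥ p exp(-½ log (p/q))`. -/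
theorem sqrt_mul_ge (p q c : ℝ) (hp : 0 ≤ p) (hq : 0 ≤ q) (h : q = 0 → p = 0) :
    exp (-c) * ((1 + c) * p + (negMulLog p + p * log q) / 2) ≤ √p * √q := by
  rcases eq_or_lt_of_le hp with hp0 | hp0
  · subst hp0
    simp
  have hq0 : 0 < q := by
    rcases eq_or_lt_of_le hq with h0 | h0
    · exact absurd (h h0.symm) hp0.ne'
    · exact h0
  set u : ℝ := (log p - log q) / 2 with hu
  have e1 : √p * √q = p * exp (-u) := by
    have h2 : √p * √q = exp ((log p + log q) / 2) := by
      rw [← Real.sqrt_mul hp, ← Real.log_mul hp0.ne' hq0.ne']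
      rw [Real.exp_half, Real.exp_log (mul_pos hp0 hq0)]
    rw [h2]
    have h3 : p * exp (-u) = exp (log p + -u) := by
      rw [Real.exp_add, Real.exp_log hp0]
    rw [h3]
    congr 1
    rw [hu]; ring
  rw [e1]
  have e2 : 1 + c - u ≤ exp (c - u) := by
    have := Real.add_one_le_exp (c - u)
    linarith
  have e3 : exp (-u) = exp (-c) * exp (c - u) := by
    rw [← Real.exp_add]; congr 1; ring
  rw [e3]
  have e4 : (1 + c) * p + (negMulLog p + p * log q) / 2 = p * (1 + c - u) := by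
    rw [hu, negMulLog]; ring
  rw [e4]
  have e5 : p * (1 + c - u) ≤ p * exp (c - u) := mul_le_mul_of_nonneg_left e2 hp
  calc exp (-c) * (p * (1 + c - u)) ≤ exp (-c) * (p * exp (c - u)) :=
        mul_le_mul_of_nonneg_left e5 (exp_pos _).le
    _ = p * (exp (-c) * exp (c - u)) := by ring

/-- The Bhattacharyya coefficient squared is at most twice the overlap. -/
theorem bc_sq_le (p q : κ → ℝ) (hp : ∀ j, 0 ≤ p j) (hq : ∀ j, 0 ≤ q j) (hp1 : ∑ j, p j = 1)
    (hq1 : ∑ j, q j = 1) :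
    (∑ j, √(p j) * √(q j)) ^ 2 ≤ 2 * ∑ j, min (p j) (q j) := by
  have e1 : ∀ j, √(p j) * √(q j) = √(min (p j) (q j)) * √(max (p j) (q j)) := by
    intro j
    rw [← Real.sqrt_mul (hp j), ← Real.sqrt_mul (le_min (hp j) (hq j)), min_mul_max]
  have e2 : (∑ j, √(p j) * √(q j)) ^ 2
      ≤ (∑ j, (√(min (p j) (q j))) ^ 2) * ∑ j, (√(max (p j) (q j))) ^ 2 := by
    rw [Finset.sum_congr rfl fun j _ => e1 j]
    exact Finset.sum_mul_sq_le_sq_mul_sq _ _ _
  have e3 : ∑ j, (√(min (p j) (q j))) ^ 2 = ∑ j, min (p j) (q j) :=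
    Finset.sum_congr rfl fun j _ => Real.sq_sqrt (le_min (hp j) (hq j))
  have e4 : ∑ j, (√(max (p j) (q j))) ^ 2 = ∑ j, max (p j) (q j) :=
    Finset.sum_congr rfl fun j _ => Real.sq_sqrt (le_max_of_le_left (hp j))
  have e5 : ∑ j, max (p j) (q j) ≤ 2 := by
    have : ∑ j, max (p j) (q j) ≤ ∑ j, (p j + q j) :=
      Finset.sum_le_sum fun j _ => max_le (by linarith [hq j]) (by linarith [hp j])
    rw [Finset.sum_add_distrib, hp1, hq1] at this
    linarith
  have e6 : 0 ≤ ∑ j, min (p j) (q j) := Finset.sum_nonneg fun j _ => le_min (hp j) (hq j)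
  rw [e3, e4] at e2
  calc (∑ j, √(p j) * √(q j)) ^ 2 ≤ (∑ j, min (p j) (q j)) * ∑ j, max (p j) (q j) := e2
    _ ≤ (∑ j, min (p j) (q j)) * 2 := mul_le_mul_of_nonneg_left e5 e6
    _ = 2 * ∑ j, min (p j) (q j) := by ring

theorem le_one_of_sum (p : κ → ℝ) (hp : ∀ j, 0 ≤ p j) (hp1 : ∑ j, p j = 1) (j : κ) : p j ≤ 1 := by
  rw [← hp1]
  exact Finset.single_le_sum (fun i _ => hp i) (Finset.mem_univ j)

end finite

variable {Ω : Type*} [MeasurableSpace Ω] {κ : Type*} [Fintype κ]

theorem integrable_of_Icc (ν : Measure Ω) [IsFiniteMeasure ν] (f : Ω → ℝ) (hf : Measurable f)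
    (B : ℝ) (h : ∀ y, |f y| ≤ B) : Integrable f ν := by
  refine Integrable.of_bound hf.aestronglyMeasurable B (Filter.Eventually.of_forall fun y => ?_)
  rw [Real.norm_eq_abs]
  exact h y

theorem abs_negMulLog_le (x : ℝ) (h0 : 0 ≤ x) (h1 : x ≤ 1) : |negMulLog x| ≤ 1 := by
  rw [abs_le]
  constructor
  · have := negMulLog_nonneg h0 h1
    linarith
  · have h := Real.negMulLog_le_one_sub_self h0
    linarith

/-- **The information inequality.** -/
theorem info_pairs (ν : Measure Ω) [IsProbabilityMeasure ν] (p : Ω → κ → ℝ)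
    (hm : ∀ j, Measurable fun y => p y j) (h0 : ∀ y j, 0 ≤ p y j) (h1 : ∀ y, ∑ j, p y j = 1)
    (C : ℝ) (hC : ∑ j, negMulLog (∫ y, p y j ∂ν) - ∫ y, ∑ j, negMulLog (p y j) ∂ν ≤ C) :
    exp (-2 * C) / 4 ≤
      ((ν.prod ν) {z | exp (-2 * C) / 4 ≤ ∑ j, min (p z.1 j) (p z.2 j)}).toReal := by
  classical
  set q : κ → ℝ := fun j => ∫ y, p y j ∂ν with hq
  have hle : ∀ y j, p y j ≤ 1 := fun y j => le_one_of_sum (p y) (h0 y) (h1 y) j
  have hpi : ∀ j, Integrable (fun y => p y j) ν := fun j =>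
    integrable_of_Icc ν _ (hm j) 1 fun y => by rw [abs_of_nonneg (h0 y j)]; exact hle y j
  have hq0 : ∀ j, 0 ≤ q j := fun j => integral_nonneg fun y => h0 y j
  have hq1 : ∑ j, q j = 1 := by
    rw [hq, ← integral_finsetSum _ fun j _ => hpi j]
    simp [h1]
  have hsm : ∀ j, Measurable fun y => √(p y j) := fun j => (hm j).sqrt
  have hsle : ∀ y j, √(p y j) ≤ 1 := fun y j => Real.sqrt_le_one.mpr (hle y j)
  have hsi : ∀ j, Integrable (fun y => √(p y j)) ν := fun j =>
    integrable_of_Icc ν _ (hsm j) 1 fun y => by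
      rw [abs_of_nonneg (Real.sqrt_nonneg _)]; exact hsle y j
  have hnm : ∀ j, Measurable fun y => negMulLog (p y j) := fun j =>
    Real.continuous_negMulLog.measurable.comp (hm j)
  have hni : ∀ j, Integrable (fun y => negMulLog (p y j)) ν := fun j =>
    integrable_of_Icc ν _ (hnm j) 1 fun y => abs_negMulLog_le _ (h0 y j) (hle y j)
  -- step 1
  set c : ℝ := C / 2 with hc
  set F : κ → ℝ := fun j => ∫ y, √(p y j) ∂ν with hF
  have hzero : ∀ j, q j = 0 → ∀ᵐ y ∂ν, p y j = 0 := by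
    intro j hj
    have := (integral_eq_zero_iff_of_nonneg (fun y => h0 y j) (hpi j)).mp hj
    exact this
  have hstep1 : exp (-c) ≤ ∑ j, F j * √(q j) := by
    have hj : ∀ j, exp (-c) * ((1 + c) * q j + ((∫ y, negMulLog (p y j) ∂ν) + q j * log (q j)) / 2)
        ≤ F j * √(q j) := by
      intro j
      have hae : ∀ᵐ y ∂ν, exp (-c) * ((1 + c) * p y j + (negMulLog (p y j) + p y j * log (q j)) / 2)
          ≤ √(p y j) * √(q j) := by
        by_cases hqj : q j = 0
        · filter_upwards [hzero j hqj] with y hy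
          exact sqrt_mul_ge _ _ _ (h0 y j) (hq0 j) fun _ => hy
        · exact Filter.Eventually.of_forall fun y =>
            sqrt_mul_ge _ _ _ (h0 y j) (hq0 j) fun h => absurd h hqj
      have hI1 : Integrable (fun y => (1 + c) * p y j) ν := (hpi j).const_mul _
      have hI2 : Integrable (fun y => p y j * log (q j)) ν := (hpi j).mul_const _
      have hI3 : Integrable (fun y => (negMulLog (p y j) + p y j * log (q j)) / 2) ν :=
        ((hni j).add hI2).div_const 2
      have hI4 : Integrable (fun y => exp (-c) *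
          ((1 + c) * p y j + (negMulLog (p y j) + p y j * log (q j)) / 2)) ν :=
        (hI1.add hI3).const_mul _
      have hI5 : Integrable (fun y => √(p y j) * √(q j)) ν := (hsi j).mul_const _
      have key := integral_mono_ae hI4 hI5 hae
      have e1 : ∫ y, exp (-c) * ((1 + c) * p y j + (negMulLog (p y j) + p y j * log (q j)) / 2) ∂ν
          = exp (-c) * ((1 + c) * q j + ((∫ y, negMulLog (p y j) ∂ν) + q j * log (q j)) / 2) := by
        rw [integral_const_mul, integral_add hI1 hI3, integral_const_mul, integral_div,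
          integral_add (hni j) hI2, integral_mul_const]
      have e2 : ∫ y, √(p y j) * √(q j) ∂ν = F j * √(q j) := by
        rw [integral_mul_const]
      rw [e1, e2] at key
      exact key
    have hsum := Finset.sum_le_sum fun j (_ : j ∈ Finset.univ) => hj j
    refine le_trans ?_ hsum
    rw [← Finset.mul_sum, Finset.sum_add_distrib, ← Finset.mul_sum, hq1, ← Finset.sum_div,
      Finset.sum_add_distrib]
    have e3 : ∫ y, ∑ j, negMulLog (p y j) ∂ν = ∑ j, ∫ y, negMulLog (p y j) ∂ν :=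
      integral_finsetSum _ fun j _ => hni j
    have e4 : ∑ j, q j * log (q j) = - ∑ j, negMulLog (q j) := by
      rw [← Finset.sum_neg_distrib]
      exact Finset.sum_congr rfl fun j _ => by rw [negMulLog]; ring
    rw [e4, ← e3]
    have e5 : (1 : ℝ) ≤ (1 + c) * 1 + (∫ y, ∑ j, negMulLog (p y j) ∂ν
        + -∑ j, negMulLog (q j)) / 2 := by
      rw [hc]
      linarith
    calc exp (-c) = exp (-c) * 1 := (mul_one _).symm
      _ ≤ _ := mul_le_mul_of_nonneg_left e5 (exp_pos _).le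
  -- step 2
  have hstep2 : exp (-c) ^ 2 ≤ ∑ j, F j ^ 2 := by
    have hcs : (∑ j, F j * √(q j)) ^ 2 ≤ (∑ j, F j ^ 2) * ∑ j, (√(q j)) ^ 2 :=
      Finset.sum_mul_sq_le_sq_mul_sq _ _ _
    have e1 : ∑ j, (√(q j)) ^ 2 = 1 := by
      rw [← hq1]; exact Finset.sum_congr rfl fun j _ => Real.sq_sqrt (hq0 j)
    rw [e1, mul_one] at hcs
    exact le_trans (pow_le_pow_left₀ (exp_pos _).le hstep1 2) hcs
  set BC : Ω × Ω → ℝ := fun z => ∑ j, √(p z.1 j) * √(p z.2 j) with hBC
  have hBCi : ∀ j, Integrable (fun z : Ω × Ω => √(p z.1 j) * √(p z.2 j)) (ν.prod ν) := fun j =>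
    (hsi j).mul_prod (hsi j)
  have hBCint : ∫ z, BC z ∂(ν.prod ν) = ∑ j, F j ^ 2 := by
    rw [hBC, integral_finsetSum _ fun j _ => hBCi j]
    refine Finset.sum_congr rfl fun j _ => ?_
    rw [integral_prod_mul (fun y => √(p y j)) (fun y => √(p y j))]
    rw [hF]; ring
  -- step 3
  set D : Ω × Ω → ℝ := fun z => ∑ j, min (p z.1 j) (p z.2 j) with hD
  have hDm : Measurable D := by
    refine Finset.measurable_sum _ fun j _ => ?_
    exact ((hm j).comp measurable_fst).min ((hm j).comp measurable_snd)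
  have hD0 : ∀ z, 0 ≤ D z := fun z => Finset.sum_nonneg fun j _ => le_min (h0 _ j) (h0 _ j)
  have hD1 : ∀ z, D z ≤ 1 := fun z => by
    rw [← h1 z.1]
    exact Finset.sum_le_sum fun j _ => min_le_left _ _
  have hDi : Integrable D (ν.prod ν) :=
    integrable_of_Icc _ _ hDm 1 fun z => by rw [abs_of_nonneg (hD0 z)]; exact hD1 z
  have hBCm : Measurable BC := by
    refine Finset.measurable_sum _ fun j _ => ?_
    exact ((hsm j).comp measurable_fst).mul ((hsm j).comp measurable_snd)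
  have hBC0 : ∀ z, 0 ≤ BC z := fun z =>
    Finset.sum_nonneg fun j _ => mul_nonneg (Real.sqrt_nonneg _) (Real.sqrt_nonneg _)
  have hBCD : ∀ z, BC z ^ 2 ≤ 2 * D z := fun z =>
    bc_sq_le (p z.1) (p z.2) (h0 _) (h0 _) (h1 _) (h1 _)
  have hBC1 : ∀ z, BC z ^ 2 ≤ 2 := fun z => by linarith [hBCD z, hD1 z]
  have hBCI : Integrable BC (ν.prod ν) := by
    rw [hBC]
    exact integrable_finsetSum _ fun j _ => hBCi j
  have hBC2I : Integrable (fun z => BC z ^ 2) (ν.prod ν) :=
    integrable_of_Icc _ _ (hBCm.pow_const 2) 2 fun z => by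
      rw [abs_of_nonneg (sq_nonneg _)]; exact hBC1 z
  have hstep3 : exp (-c) ^ 4 ≤ 2 * ∫ z, D z ∂(ν.prod ν) := by
    set m : ℝ := ∫ z, BC z ∂(ν.prod ν) with hmdef
    have h1' : m ^ 2 ≤ ∫ z, BC z ^ 2 ∂(ν.prod ν) := by
      have hnn : 0 ≤ ∫ z, (BC z - m) ^ 2 ∂(ν.prod ν) := integral_nonneg fun z => sq_nonneg _
      have he : ∫ z, (BC z - m) ^ 2 ∂(ν.prod ν)
          = ∫ z, (BC z ^ 2 - (2 * m) * BC z + m ^ 2) ∂(ν.prod ν) := by
        refine integral_congr_ae (Filter.Eventually.of_forall fun z => ?_)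
        show (BC z - m) ^ 2 = BC z ^ 2 - (2 * m) * BC z + m ^ 2
        ring
      have hA : Integrable (fun z => (2 * m) * BC z) (ν.prod ν) := hBCI.const_mul _
      have hB : Integrable (fun z => BC z ^ 2 - (2 * m) * BC z) (ν.prod ν) := hBC2I.sub hA
      have e8 : ∫ z, (BC z ^ 2 - (2 * m) * BC z + m ^ 2) ∂(ν.prod ν)
          = (∫ z, BC z ^ 2 ∂(ν.prod ν)) - (2 * m) * m + m ^ 2 := by
        rw [integral_add hB (integrable_const _), integral_sub hBC2I hA, integral_const_mul, ← hmdef]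
        simp
      rw [he, e8] at hnn
      nlinarith
    have h2' : ∫ z, BC z ^ 2 ∂(ν.prod ν) ≤ ∫ z, 2 * D z ∂(ν.prod ν) :=
      integral_mono hBC2I (hDi.const_mul 2) hBCD
    rw [integral_const_mul] at h2'
    have h3' : exp (-c) ^ 2 ≤ m := by rw [hBCint]; exact hstep2
    have h4' : (exp (-c) ^ 2) ^ 2 ≤ m ^ 2 := pow_le_pow_left₀ (by positivity) h3' 2
    calc exp (-c) ^ 4 = (exp (-c) ^ 2) ^ 2 := by ring
      _ ≤ m ^ 2 := h4'
      _ ≤ _ := h1'
      _ ≤ _ := h2'
  -- step 4
  have he4 : exp (-c) ^ 4 = exp (-2 * C) := by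
    rw [← Real.exp_nat_mul]; congr 1; rw [hc]; push_cast; ring
  rw [he4] at hstep3
  set θ : ℝ := exp (-2 * C) / 4 with hθ
  have hθ0 : 0 ≤ θ := by rw [hθ]; positivity
  set S : Set (Ω × Ω) := {z | θ ≤ D z} with hS
  have hSm : MeasurableSet S := measurableSet_le measurable_const hDm
  have hpt : ∀ z, D z ≤ θ + S.indicator (fun _ => (1 : ℝ)) z := by
    intro z
    by_cases hz : z ∈ S
    · rw [Set.indicator_of_mem hz]; linarith [hD1 z]
    · rw [Set.indicator_of_notMem hz]
      have : ¬ (θ ≤ D z) := hz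
      linarith
  have hindI : Integrable (S.indicator fun _ => (1 : ℝ)) (ν.prod ν) :=
    (integrable_const (1 : ℝ)).indicator hSm
  have hfin := integral_mono hDi ((integrable_const θ).add hindI) hpt
  have e6 : ∫ z, (θ + S.indicator (fun _ => (1 : ℝ)) z) ∂(ν.prod ν)
      = θ + ((ν.prod ν) S).toReal := by
    rw [integral_add (integrable_const θ) hindI, integral_indicator hSm]
    simp [measureReal_def]
  have e7 : ∫ z, D z ∂(ν.prod ν) ≤ θ + ((ν.prod ν) S).toReal := le_trans hfin (le_of_eq e6)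
  have : exp (-2 * C) / 2 ≤ θ + ((ν.prod ν) S).toReal := by linarith
  have hθ2 : θ = exp (-2 * C) / 4 := hθ
  linarith

end Pool.Agent.Helper97.AG
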