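import Mathlib

/-!
# Maximal coupling at the scale of a finite partition (project AG, piece F)
-/

namespace Pool.Agent.Helper97.AG

open MeasureTheory
open scoped ENNReal

variable {Ω Ω' : Type*} [MeasurableSpace Ω] [MeasurableSpace Ω'] {κ : Type*} [Fintype κ]
  [MeasurableSpace κ] [MeasurableSingletonClass κ]

omit [Fintype κ] in
theorem withDensity_cell (μ : Measure Ω) (c : Ω → κ) (hc : Measurable c) (w : κ → ℝ≥0∞) (j : κ) :
    μ.withDensity (fun x => w (c x)) (c ⁻¹' {j}) = w j * μ (c ⁻¹' {j}) := by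
  rw [withDensity_apply _ (hc (measurableSet_singleton j))]
  have : ∫⁻ x in c ⁻¹' {j}, w (c x) ∂μ = ∫⁻ x in c ⁻¹' {j}, w j ∂μ := by
    refine setLIntegral_congr_fun (hc (measurableSet_singleton j)) fun x hx => ?_
    have hx' : c x = j := hx
    simp only [hx']
  rw [this, setLIntegral_const]

theorem sum_restrict_cell (ν : Measure Ω) (c : Ω → κ) (hc : Measurable c) :
    ∑ j, ν.restrict (c ⁻¹' {j}) = ν := by
  ext s hs
  rw [Measure.finsetSum_apply]
  have e : ∀ j, ν.restrict (c ⁻¹' {j}) s = ν (s ∩ c ⁻¹' {j}) := fun j => Measure.restrict_apply hs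
  rw [Finset.sum_congr rfl fun j _ => e j]
  rw [← measure_biUnion_finset]
  · congr 1
    ext x
    simp
  · intro i _ j _ hij
    refine Set.disjoint_left.mpr fun x hx hx' => hij ?_
    have h1 : c x = i := hx.2
    have h2 : c x = j := hx'.2
    rw [← h1, h2]
  · intro j _
    exact hs.inter (hc (measurableSet_singleton j))

/-- **Maximal coupling of two laws seen through a finite partition.** -/
theorem exists_coupling (μ : Measure Ω) [IsProbabilityMeasure μ] (μ' : Measure Ω')
    [IsProbabilityMeasure μ'] (c : Ω → κ) (hc : Measurable c) (c' : Ω' → κ) (hc' : Measurable c') :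
    ∃ π : Measure (Ω × Ω'), π.map Prod.fst = μ ∧ π.map Prod.snd = μ' ∧
      ∑ j, min (μ (c ⁻¹' {j})) (μ' (c' ⁻¹' {j})) ≤ π {z | c z.1 = c' z.2} := by
  classical
  set a : κ → ℝ≥0∞ := fun j => μ (c ⁻¹' {j}) with ha
  set b : κ → ℝ≥0∞ := fun j => μ' (c' ⁻¹' {j}) with hb
  set m : κ → ℝ≥0∞ := fun j => min (a j) (b j) with hmd
  have ha1 : ∀ j, a j ≤ 1 := fun j => prob_le_one
  have hb1 : ∀ j, b j ≤ 1 := fun j => prob_le_one
  have hat : ∀ j, a j ≠ ∞ := fun j => ne_top_of_le_ne_top ENNReal.one_ne_top (ha1 j)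
  have hbt : ∀ j, b j ≠ ∞ := fun j => ne_top_of_le_ne_top ENNReal.one_ne_top (hb1 j)
  have hma : ∀ j, m j ≤ a j := fun j => min_le_left _ _
  have hmb : ∀ j, m j ≤ b j := fun j => min_le_right _ _
  have hmt : ∀ j, m j ≠ ∞ := fun j => ne_top_of_le_ne_top (hat j) (hma j)
  set u : κ → ℝ≥0∞ := fun j => m j / a j with hu
  set v : κ → ℝ≥0∞ := fun j => m j / b j with hv
  have hu1 : ∀ j, u j ≤ 1 := fun j => by
    rw [hu]; exact ENNReal.div_le_of_le_mul (by rw [one_mul]; exact hma j)
  have hv1 : ∀ j, v j ≤ 1 := fun j => by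
    rw [hv]; exact ENNReal.div_le_of_le_mul (by rw [one_mul]; exact hmb j)
  have hua : ∀ j, u j * a j = m j := by
    intro j
    by_cases h : a j = 0
    · have : m j = 0 := le_antisymm (h ▸ hma j) zero_le
      rw [h, this, mul_zero]
    · exact ENNReal.div_mul_cancel h (hat j)
  have hvb : ∀ j, v j * b j = m j := by
    intro j
    by_cases h : b j = 0
    · have : m j = 0 := le_antisymm (h ▸ hmb j) zero_le
      rw [h, this, mul_zero]
    · exact ENNReal.div_mul_cancel h (hbt j)
  have hcm : ∀ w : κ → ℝ≥0∞, Measurable fun x => w (c x) := fun w =>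
    (measurable_of_finite w).comp hc
  have hcm' : ∀ w : κ → ℝ≥0∞, Measurable fun x => w (c' x) := fun w =>
    (measurable_of_finite w).comp hc'
  set α : Measure Ω := μ.withDensity fun x => u (c x) with hα
  set β : Measure Ω' := μ'.withDensity fun x => v (c' x) with hβ
  set α' : Measure Ω := μ.withDensity fun x => (1 - u (c x)) with hα'
  set β' : Measure Ω' := μ'.withDensity fun x => (1 - v (c' x)) with hβ'
  have hαα : α + α' = μ := by
    rw [hα, hα', ← withDensity_add_left (hcm u)]
    have : ((fun x => u (c x)) + fun x => (1 - u (c x))) = (1 : Ω → ℝ≥0∞) := by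
      funext x
      exact add_tsub_cancel_of_le (hu1 (c x))
    rw [this, withDensity_one]
  have hββ : β + β' = μ' := by
    rw [hβ, hβ', ← withDensity_add_left (hcm' v)]
    have : ((fun x => v (c' x)) + fun x => (1 - v (c' x))) = (1 : Ω' → ℝ≥0∞) := by
      funext x
      exact add_tsub_cancel_of_le (hv1 (c' x))
    rw [this, withDensity_one]
  have hαc : ∀ j, α (c ⁻¹' {j}) = m j := fun j => by
    rw [hα, withDensity_cell μ c hc u j]; exact hua j
  have hβc : ∀ j, β (c' ⁻¹' {j}) = m j := fun j => by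
    rw [hβ, withDensity_cell μ' c' hc' v j]; exact hvb j
  have hαu : α Set.univ = ∑ j, m j := by
    have h := congrArg (fun ν : Measure Ω => ν Set.univ) (sum_restrict_cell α c hc)
    simp only [Measure.finsetSum_apply, Measure.restrict_apply_univ] at h
    rw [← h]
    exact Finset.sum_congr rfl fun j _ => hαc j
  have hβu : β Set.univ = ∑ j, m j := by
    have h := congrArg (fun ν : Measure Ω' => ν Set.univ) (sum_restrict_cell β c' hc')
    simp only [Measure.finsetSum_apply, Measure.restrict_apply_univ] at h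
    rw [← h]
    exact Finset.sum_congr rfl fun j _ => hβc j
  have : IsFiniteMeasure α := ⟨by
    rw [hαu]; exact ENNReal.sum_lt_top.mpr fun j _ => lt_top_iff_ne_top.mpr (hmt j)⟩
  have : IsFiniteMeasure β := ⟨by
    rw [hβu]; exact ENNReal.sum_lt_top.mpr fun j _ => lt_top_iff_ne_top.mpr (hmt j)⟩
  have hα'le : α' ≤ μ := by
    rw [← hαα]
    exact Measure.le_add_left le_rfl
  have hβ'le : β' ≤ μ' := by
    rw [← hββ]
    exact Measure.le_add_left le_rfl
  have : IsFiniteMeasure α' := ⟨lt_of_le_of_lt (hα'le Set.univ) (measure_lt_top _ _)⟩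
  have : IsFiniteMeasure β' := ⟨lt_of_le_of_lt (hβ'le Set.univ) (measure_lt_top _ _)⟩
  have hSt : (∑ j, m j) ≠ ∞ := (ENNReal.sum_lt_top.mpr fun j _ => lt_top_iff_ne_top.mpr (hmt j)).ne
  have hα'u : ∑ j, m j + α' Set.univ = 1 := by
    rw [← hαu, ← Measure.add_apply, hαα]; exact measure_univ
  have hβ'u : ∑ j, m j + β' Set.univ = 1 := by
    rw [← hβu, ← Measure.add_apply, hββ]; exact measure_univ
  set r : ℝ≥0∞ := α' Set.univ with hr
  have hrβ : β' Set.univ = r := by
    have : ∑ j, m j + β' Set.univ = ∑ j, m j + r := by rw [hβ'u, hα'u]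
    exact (ENNReal.add_right_inj hSt).mp this
  have hrt : r ≠ ∞ := (measure_lt_top α' _).ne
  -- the coupling
  set π₁ : Measure (Ω × Ω') :=
    ∑ j, (m j)⁻¹ • ((α.restrict (c ⁻¹' {j})).prod (β.restrict (c' ⁻¹' {j}))) with hπ₁
  set π₂ : Measure (Ω × Ω') := r⁻¹ • (α'.prod β') with hπ₂
  have hcancel : ∀ j, ((m j)⁻¹ * m j) • α.restrict (c ⁻¹' {j}) = α.restrict (c ⁻¹' {j}) := by
    intro j
    by_cases h : m j = 0
    · have : α.restrict (c ⁻¹' {j}) = 0 := by
        rw [Measure.restrict_eq_zero, hαc j, h]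
      rw [this, smul_zero]
    · rw [ENNReal.inv_mul_cancel h (hmt j), one_smul]
  have hcancel' : ∀ j, ((m j)⁻¹ * m j) • β.restrict (c' ⁻¹' {j}) = β.restrict (c' ⁻¹' {j}) := by
    intro j
    by_cases h : m j = 0
    · have : β.restrict (c' ⁻¹' {j}) = 0 := by
        rw [Measure.restrict_eq_zero, hβc j, h]
      rw [this, smul_zero]
    · rw [ENNReal.inv_mul_cancel h (hmt j), one_smul]
  have hfst₁ : π₁.map Prod.fst = α := by
    rw [hπ₁, Measure.map_finset_sum measurable_fst.aemeasurable]
    have : ∀ j, ((m j)⁻¹ • ((α.restrict (c ⁻¹' {j})).prod (β.restrict (c' ⁻¹' {j})))).map Prod.fst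
        = α.restrict (c ⁻¹' {j}) := by
      intro j
      rw [Measure.map_smul, Measure.map_fst_prod, Measure.restrict_apply_univ, hβc j, smul_smul]
      exact hcancel j
    rw [Finset.sum_congr rfl fun j _ => this j]
    exact sum_restrict_cell α c hc
  have hsnd₁ : π₁.map Prod.snd = β := by
    rw [hπ₁, Measure.map_finset_sum measurable_snd.aemeasurable]
    have : ∀ j, ((m j)⁻¹ • ((α.restrict (c ⁻¹' {j})).prod (β.restrict (c' ⁻¹' {j})))).map Prod.snd
        = β.restrict (c' ⁻¹' {j}) := by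
      intro j
      rw [Measure.map_smul, Measure.map_snd_prod, Measure.restrict_apply_univ, hαc j, smul_smul]
      exact hcancel' j
    rw [Finset.sum_congr rfl fun j _ => this j]
    exact sum_restrict_cell β c' hc'
  have hfst₂ : π₂.map Prod.fst = α' := by
    rw [hπ₂, Measure.map_smul, Measure.map_fst_prod, hrβ, smul_smul]
    by_cases h : r = 0
    · have : α' = 0 := Measure.measure_univ_eq_zero.mp h
      rw [this, smul_zero]
    · rw [ENNReal.inv_mul_cancel h hrt, one_smul]
  have hsnd₂ : π₂.map Prod.snd = β' := by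
    rw [hπ₂, Measure.map_smul, Measure.map_snd_prod, ← hr, smul_smul]
    by_cases h : r = 0
    · have : β' = 0 := Measure.measure_univ_eq_zero.mp (by rw [hrβ, h])
      rw [this, smul_zero]
    · rw [ENNReal.inv_mul_cancel h hrt, one_smul]
  refine ⟨π₁ + π₂, ?_, ?_, ?_⟩
  · rw [Measure.map_add _ _ measurable_fst, hfst₁, hfst₂, hαα]
  · rw [Measure.map_add _ _ measurable_snd, hsnd₁, hsnd₂, hββ]
  · have hset : MeasurableSet {z : Ω × Ω' | c z.1 = c' z.2} :=
      measurableSet_eq_fun (hc.comp measurable_fst) (hc'.comp measurable_snd)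
    have h1 : ∑ j, m j ≤ π₁ {z | c z.1 = c' z.2} := by
      rw [hπ₁, Measure.finsetSum_apply]
      refine Finset.sum_le_sum fun j _ => ?_
      rw [Measure.smul_apply, smul_eq_mul]
      have h2 : m j * m j ≤ ((α.restrict (c ⁻¹' {j})).prod (β.restrict (c' ⁻¹' {j})))
          {z | c z.1 = c' z.2} := by
        have h3 : (c ⁻¹' {j}) ×ˢ (c' ⁻¹' {j}) ⊆ {z : Ω × Ω' | c z.1 = c' z.2} := by
          rintro ⟨x, x'⟩ ⟨hx, hx'⟩
          have e1 : c x = j := hx
          have e2 : c' x' = j := hx'
          show c x = c' x'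
          rw [e1, e2]
        refine le_trans (le_of_eq ?_) (measure_mono h3)
        rw [Measure.prod_prod, Measure.restrict_apply_self, Measure.restrict_apply_self, hαc j,
          hβc j]
      by_cases h : m j = 0
      · rw [h]; exact zero_le
      · calc m j = (m j)⁻¹ * (m j * m j) := by
              rw [← mul_assoc, ENNReal.inv_mul_cancel h (hmt j), one_mul]
          _ ≤ _ := by gcongr
    refine le_trans h1 ?_
    rw [Measure.add_apply]
    exact le_self_add

end Pool.Agent.Helper97.AG
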